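import Pool.Agent.H27.LV.Targets3

/-!
# MP_70ba79_ag, board `lw_modules`: module MIN2
-/

set_option autoImplicit false

namespace Pool.Agent.H85.LW

open MvPolynomial SC Pool.Agent.H27.LV

theorem min2 (hHOM : T_HOM2) (hINJ : T_INJ2) (hCPF : T_CPF) (hMRK : T_MRK) : T_MIN2 := by
  intro k K _ _ _ n d e ι R _ _ _ a φ D c e0 hφ hg
  classical
  obtain ⟨τ, hτ⟩ := hCPF K n d e R c e0 hg.1
  obtain ⟨hadd, hmul, hhom⟩ := hHOM k K n d e ι a φ D c hφ
  have hzero : vv D c a φ 0 = 0 := by
    have := hmul 0 0
    simpa using this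
  have hsum : ∀ (s : Finset R) (t : R → K),
      vv D c a φ (∑ q ∈ s, C (t q) * mono K (τ q).1) =
        ∑ q ∈ s, C (t q) * vv D c a φ (mono K (τ q).1) := by
    intro s t
    induction s using Finset.induction_on with
    | empty => simpa using hzero
    | insert q s hq ih => rw [Finset.sum_insert hq, Finset.sum_insert hq, hadd, hmul, ih]
  let M : Matrix (Mon (n + 1) (d + e + e)) R K :=
    Matrix.of fun p q => (vv D c a φ (mono K (τ q).1)).coeff (fs p.1)
  have hM : ∀ t : R → K, M.mulVec t = 0 → t = 0 := by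
    intro t ht
    obtain ⟨g, hgdef⟩ : ∃ g, g = ∑ q, C (t q) * mono K (τ q).1 := ⟨_, rfl⟩
    have hghom : g.IsHomogeneous (d + e) := by
      rw [hgdef]
      refine IsHomogeneous.sum _ _ _ fun q _ => ?_
      have := (isHomogeneous_C (Fin (n + 1)) (t q)).mul (isHomogeneous_mono (K := K) (τ q))
      simpa using this
    have hvg : vv D c a φ g = ∑ q, C (t q) * vv D c a φ (mono K (τ q).1) := by
      rw [hgdef]
      exact hsum Finset.univ t
    have hv0 : vv D c a φ g = 0 := by
      rw [dec (hhom g hghom)]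
      refine Finset.sum_eq_zero fun p _ => ?_
      have h1 : coeff (fs p.1) (vv D c a φ g) = 0 := by
        rw [hvg, coeff_sum]
        have h2 := congrFun ht p
        simp only [Matrix.mulVec, dotProduct, Pi.zero_apply, M, Matrix.of_apply] at h2
        rw [← h2]
        refine Finset.sum_congr rfl fun q _ => ?_
        rw [coeff_C_mul, mul_comm]
      rw [h1, C_0, zero_mul]
    obtain ⟨h, hh, hgh⟩ := hINJ k K n d e ι a φ D c hg g hghom hv0
    let w : Mon (n + 1) d ⊕ R → K := Sum.elim (fun p => coeff (fs p.1) h) (fun r => - t r)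
    have hw : (aug d c τ).mulVec w = 0 := by
      funext p
      simp only [Matrix.mulVec, dotProduct, Fintype.sum_sum_type, Pi.zero_apply]
      have e1 : ∑ p' : Mon (n + 1) d, aug d c τ p (Sum.inl p') * w (Sum.inl p') =
          coeff (fs p.1) (frm c * h) := by
        conv_rhs => rw [dec hh, Finset.mul_sum, coeff_sum]
        refine Finset.sum_congr rfl fun p' _ => ?_
        change (frm c * mono K p'.1).coeff (fs p.1) * coeff (fs p'.1) h = _
        rw [mul_left_comm, coeff_C_mul, mul_comm]
      have e2 : ∑ r : R, aug d c τ p (Sum.inr r) * w (Sum.inr r) = - coeff (fs p.1) g := by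
        rw [hgdef, coeff_sum, ← Finset.sum_neg_distrib]
        refine Finset.sum_congr rfl fun r _ => ?_
        change (if p = τ r then (1 : K) else 0) * (- t r) = _
        rw [coeff_C_mul, coeff_mono]
        by_cases hp : p = τ r
        · rw [if_pos hp, if_pos (by rw [hp])]; ring
        · rw [if_neg hp, if_neg (fun h' => hp (Subtype.ext h'.symm))]; ring
      rw [e1, e2, hgh]
      ring
    have hw' : ((aug d c τ).submatrix e0 id).mulVec w = 0 := by
      funext x
      have := congrFun hw (e0 x)
      simpa [Matrix.mulVec, dotProduct] using this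
    have hw0 : w = 0 := Matrix.eq_zero_of_mulVec_eq_zero hτ hw'
    funext r
    have := congrFun hw0 (Sum.inr r)
    simpa [w] using this
  obtain ⟨κ, hκ⟩ := hMRK K (Mon (n + 1) (d + e + e)) R M hM
  exact ⟨κ, τ, hκ, hτ⟩

end Pool.Agent.H85.LW
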