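import Pool.Agent.H27.LV.Targets3
import Pool.Agent.H64.SC.Api

/-!
# MP_70ba79_ag, board `lw_modules`: module UNI
-/

set_option autoImplicit false

namespace Pool.Agent.H85.LW

open MvPolynomial SC Pool.Agent.H27.LV

lemma coeff_frm_mul_mono {F : Type} [Field F] {n e : ℕ} (c : Mon (n + 1) e → F)
    (f g : Fin (n + 1) → ℕ) [DecidableEq (Fin (n + 1) → ℕ)] :
    (frm c * mono F f).coeff (fs g) =
      ∑ β : Mon (n + 1) e, c β * if (fun i => β.1 i + f i) = g then 1 else 0 := by
  unfold frm
  rw [Finset.sum_mul, coeff_sum]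
  refine Finset.sum_congr rfl fun β _ => ?_
  have h1 : mono F β.1 * mono F f = mono F (fun i => β.1 i + f i) := by
    have h2 : fs β.1 + fs f = fs (fun i => β.1 i + f i) := by
      ext i
      simp
    simp only [mono, monomial_mul, one_mul, h2]
  rw [mul_assoc, h1, coeff_C_mul, coeff_mono]
  congr 1
  split_ifs <;> rfl

theorem uni (hCPF : T_CPF) : T_UNI := by
  intro k K _ _ _ n d e R _ _ v c e0 hres hc hne
  classical
  choose c0 hc0 using fun β => hres (c β) (hc β)
  have hc0ne : frm c0 ≠ 0 := by
    intro h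
    obtain ⟨β, hβ1, hβ2⟩ := hne
    have h1 := congrFun (frm_zero h) β
    have h2 := hc0 β
    rw [h1] at h2
    simp only [Pi.zero_apply, map_zero, sub_zero] at h2
    rcases h2 with h2 | h2
    · exact hβ1 h2
    · omega
  obtain ⟨τ, hτ⟩ := hCPF k n d e R c0 e0 hc0ne
  let c' : Mon (n + 1) e → v.vs := fun β => ⟨c β, hc β⟩
  let A' : Matrix (Mon (n + 1) (d + e)) (Mon (n + 1) d ⊕ R) v.vs :=
    Matrix.of fun p x => match x with
      | Sum.inl p' => ∑ β : Mon (n + 1) e, c' β * if (fun i => β.1 i + p'.1 i) = p.1 then 1 else 0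
      | Sum.inr r => if p = τ r then 1 else 0
  have hA1 : (A'.submatrix e0 id).map (v.vs.subtype) = (aug d c τ).submatrix e0 id := by
    ext x y
    rcases y with p' | r
    · change v.vs.subtype (∑ β : Mon (n + 1) e, c' β *
        if (fun i => β.1 i + p'.1 i) = (e0 x).1 then 1 else 0) =
          (frm c * mono K p'.1).coeff (fs (e0 x).1)
      rw [coeff_frm_mul_mono, map_sum]
      refine Finset.sum_congr rfl fun β _ => ?_
      rw [map_mul]
      congr 1
      split_ifs <;> simp
    · change v.vs.subtype (if e0 x = τ r then 1 else 0) = if e0 x = τ r then (1 : K) else 0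
      split_ifs <;> simp
  have hcr : ∀ β, IsLocalRing.residue v.vs (c' β) = algebraMap k v.Res (c0 β) := by
    intro β
    have h1 : v.red (c β) = v.red (algebraMap k K (c0 β)) := by
      have h2 : v.red (c β - algebraMap k K (c0 β)) = 0 := by
        rcases hc0 β with h | h
        · rw [h, v.red_zero]
        · exact v.red_eq_zero_of_pos (by omega)
      rw [v.red_sub (hc β) (by rw [v.ord_base])] at h2
      exact sub_eq_zero.1 h2
    rw [v.red_algebraMap] at h1
    rw [← h1, v.red_of_nonneg (hc β)]
  have hA2 : (A'.submatrix e0 id).map (IsLocalRing.residue v.vs) =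
      ((aug d c0 τ).submatrix e0 id).map (algebraMap k v.Res) := by
    ext x y
    rcases y with p' | r
    · change IsLocalRing.residue v.vs (∑ β : Mon (n + 1) e, c' β *
        if (fun i => β.1 i + p'.1 i) = (e0 x).1 then 1 else 0) =
          algebraMap k v.Res ((frm c0 * mono k p'.1).coeff (fs (e0 x).1))
      rw [coeff_frm_mul_mono, map_sum, map_sum]
      refine Finset.sum_congr rfl fun β _ => ?_
      rw [map_mul, map_mul, hcr]
      congr 1
      split_ifs <;> simp
    · change IsLocalRing.residue v.vs (if e0 x = τ r then 1 else 0) =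
        algebraMap k v.Res (if e0 x = τ r then 1 else 0)
      split_ifs <;> simp
  have hu : IsUnit (A'.submatrix e0 id).det := by
    rw [← IsLocalRing.residue_ne_zero_iff_isUnit]
    have h1 : IsLocalRing.residue v.vs (A'.submatrix e0 id).det =
        ((A'.submatrix e0 id).map (IsLocalRing.residue v.vs)).det := RingHom.map_det _ _
    have h2 : algebraMap k v.Res ((aug d c0 τ).submatrix e0 id).det =
        (((aug d c0 τ).submatrix e0 id).map (algebraMap k v.Res)).det := RingHom.map_det _ _
    rw [h1, hA2, ← h2]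
    intro h3
    exact hτ ((map_eq_zero _).1 h3)
  have h1 : v.vs.subtype (A'.submatrix e0 id).det =
      ((A'.submatrix e0 id).map (v.vs.subtype)).det := RingHom.map_det _ _
  rw [hA1] at h1
  have h2 := v.isUnit_vs_iff.1 hu
  refine ⟨τ, ?_, ?_⟩
  · rw [← h1]; exact h2.1
  · rw [← h1]; exact h2.2

end Pool.Agent.H85.LW
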